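import Pool.Agent.X39.Near.Mhz

/-!
# Relations between multiple Hurwitz zeta values pass to every system with the stuffle product, at ALL algebraic points close to any number outside a set of dimension zero

The question asks whether every relation `f(ζ(s_1), …, ζ(s_m)) = 0` between real multiple zeta values holds for the `p`-adic
ones. The real ones are the values at `z = 1` of the functions `ζ(s; z)`: the sums of `1 / ((z + n₁) ^ s₁ ⋯ (z + n_k) ^ s_k)`
over `0 ≤ n₁ < ⋯ < n_k` (`mhz`). We prove, outside ONE set `E` of complex numbers of Hausdorff dimension `0` (for all degrees,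
weights, number fields and scales): for every complex `x`, every polynomial relation of polynomial height between the numbers
`ζ(s; t)`, even an approximate one, at ANY algebraic point `t` of a number field close to `x`, holds for every family of
elements `v_s` of a commutative ring with the stuffle product (`Stuffle`), such as `ζ(s; z)` for all `z` and the `p`-adic
multiple zeta values for all `p` (by Besser and Furusho).

Proof: the algebra of the functions `ζ(s; z)` is generated by functions algebraically independent over `ℂ(z)`, the `ζ(s; z)`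
being linearly independent polynomials in them (`Pool.Agent.X142.MZ`); the levels of the library give, on compact sets, at
most `C T ^ ε` exceptional points of height `T`, for every `ε > 0`, and so a limsup set of dimension `0`
(`Pool.Agent.X39.Near`); the stuffle relations make a polynomial relation linear, and the coefficients of the linear relation
are integers of `F`, to which Liouville's inequality applies.
-/

set_option autoImplicit false

open MvPolynomial NumberField

namespace Pool.Agent.Results.MP_03df5c_nt.ApproximationsOfAllNumbers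

open Pool.Agent.X39.Near (Size)
open Pool.Agent.X142.MZ (mhz Adm stuffle)

/-- The elements `v_s` have the stuffle product: `v_∅ = 1` and `v_a v_b` is the sum of `v_w` over the terms `w` of the
stuffle product of `a` and `b`, for all admissible `a` and `b`. -/
def Stuffle {S : Type} [CommRing S] (v : List ℕ → S) : Prop :=
  v [] = 1 ∧ ∀ a b : List ℕ, Adm a → Adm b → v a * v b = ((stuffle a b).map v).sum

/-- All relations at `t` of height `T ^ A` and precision `T ^ (-B)` with monomials in `M` hold for every family with the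
stuffle product. -/
def Pass (M : Finset (List ℕ →₀ ℕ)) (F : Type) [Field F] [NumberField F] (ι : F →+* ℂ)
    (A B T : ℝ) (t : F) : Prop :=
  ∀ P : MvPolynomial (List ℕ) (𝓞 F), P.support ⊆ M → (∀ e (φ : F →+* ℂ), ‖φ (P.coeff e : 𝓞 F)‖ ≤ T ^ A) →
    ‖eval₂ (ι.comp (algebraMap (𝓞 F) F)) (fun s => mhz s (ι t)) P‖ ≤ T ^ (-B) →
    ∀ (S : Type) [CommRing S] (f : 𝓞 F →+* S) (v : List ℕ → S), Stuffle v → eval₂ f v P = 0

/-- The functions `ζ(s; z)` have the stuffle product, at every `z`. -/
theorem stuffle_mhz (z : ℂ) : Stuffle fun s => mhz s z :=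
  ⟨rfl, fun _ _ ha hb => Pool.Agent.X142.MZ.mhz_mul ha hb z⟩

/-- **Theorem.** There is a set `E` of complex numbers of Hausdorff dimension `0` such that for all finite sets `M` of
monomials in the variables `X_s`, `s` admissible: (1) for all complex `x` outside `E`, all number fields `F` with an
embedding `ι` in `ℂ`, all `A` and `ω > 0` there are `B`, `T₁` such that for all `T ≥ T₁` and all `t ∈ F`, quotients of
integers with conjugates at most `T`, with `|ι t - x| ≤ T ^ (-ω)`, every polynomial `P` with monomials in `M` and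
coefficients integers of `F` with conjugates at most `T ^ A`, such that `|P(ζ(s; t))| ≤ T ^ (-B)`, satisfies `P(v_s) = 0` for
all families `v_s` with the stuffle product; (2) for all real `x` outside `E` and all `A` there is `B` such that this holds
over `ℚ` at the convergents `t` of `x`, at the level of the denominator, from some point on. -/
theorem result :
    ∃ E : Set ℂ, dimH E = 0 ∧ ∀ M : Finset (List ℕ →₀ ℕ), (∀ e ∈ M, ∀ s ∈ e.support, Adm s) →
      (∀ x : ℂ, x ∉ E → ∀ (F : Type) [Field F] [NumberField F] (ι : F →+* ℂ)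
        (A : ℕ) (ω : ℝ), 0 < ω → ∃ B T₁ : ℝ, ∀ T : ℝ, T₁ ≤ T → ∀ t : F, Size F T t →
          ‖ι t - x‖ ≤ T ^ (-ω) → Pass M F ι A B T t) ∧
      ∀ x : ℝ, (x : ℂ) ∉ E → ∀ A : ℕ, ∃ (B : ℝ) (n₀ : ℕ), ∀ k : ℕ,
        n₀ ≤ k → Pass M ℚ (algebraMap ℚ ℂ) A B (x.convergent k).den (x.convergent k) := by
  obtain ⟨E, h1, hE, h2⟩ := Pool.Agent.X39.Near.mhz_lin (fun k : Fin 0 => k.elim0)
  refine ⟨E, h1, fun M hM => ?_⟩
  obtain ⟨W, hW, T₀, H⟩ := Pool.Agent.X39.Near.mem_J_of_bound M hM
  obtain ⟨h3, h4⟩ := h2 W hW
  refine ⟨fun x hx F _ _ ι A ω hω => ?_, fun x hx A => ?_⟩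
  · obtain ⟨B, T₁, h5⟩ := h3 x hx F ι 0 (A + 1) ω hω
    refine ⟨B + (A + 1) * (Module.finrank ℚ F : ℕ) + 1, max T₀ T₁,
      fun T hT t ht htx P hPM hPA hsmall S _ f v hv => ?_⟩
    have h6 := h5 T ((le_max_right _ _).trans hT) t ht htx
    push_cast at h6
    exact Pool.Agent.X39.Near.J_hom f v hv.1 hv.2
      (H _ F ι A B T t ((le_max_left _ _).trans hT) (Nat.cast_nonneg A) h6 P hPM hPA hsmall)
  · obtain ⟨B, n₀, h5⟩ := h4 x hx 0 (A + 1)
    have hirr : Irrational x := by
      intro h
      apply hx
      apply hE
      obtain ⟨y, rfl⟩ := h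
      show IsAlgebraic ℚ (((y : ℝ)) : ℂ)
      have h4 : (((y : ℝ)) : ℂ) = algebraMap ℚ ℂ y := by simp
      rw [h4]
      exact isAlgebraic_algebraMap y
    obtain ⟨n₁, h7⟩ := Pool.Agent.X39.Near.den_conv hirr T₀
    refine ⟨B + (A + 1) * (Module.finrank ℚ ℚ : ℕ) + 1, max n₀ n₁, fun k hk P hPM hPA hsmall S _ f v hv => ?_⟩
    have h6 := h5 k ((le_max_left _ _).trans hk)
    push_cast at h6
    exact Pool.Agent.X39.Near.J_hom f v hv.1 hv.2
      (H _ ℚ (algebraMap ℚ ℂ) A B _ _ (h7 k ((le_max_right _ _).trans hk)).le (Nat.cast_nonneg A) h6 P hPM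
        hPA hsmall)

end Pool.Agent.Results.MP_03df5c_nt.ApproximationsOfAllNumbers
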