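import Mathlib
import Pool.Agent.X90.DC.Gen
import Pool.Agent.H340R2.LW

/-!
# MP_03df5c_nt: reduction of Q1 to relations of bounded weight for almost all families of indices

Consider finitely many patterns `w_1, …, w_r`: indices whose entries are fixed numbers or linear forms
`b + u_1 s_1 + ⋯ + u_k s_k` in variables, for example `(3)`, `(2, 1)`, `(5, s_1)`, `(2, 3, s_1 + s_2, 1, s_2 + 4)`. The
fixed entries in front of the first entry that depends on the variables have sum at most `W`. Then, for large `N` and for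
all but `K N ^ (k - 1)` of the tuples `s ∈ [N, κ N] ^ k`, Q1 for the indices `w_1(s), …, w_r(s)` and integer polynomials
`f` of degree at most `D` with coefficients of absolute value at most `C ^ N` follows from Q1 for indices of weight at
most `W`: if `f(ζ(w_1(s)), …) = 0` then `f(Z(w_1(s)), …) = 0` for all families `Z`, in a commutative `ℚ`-algebra, which
have the stuffle product and all the polynomial relations of the real multiple zeta values of weight at most `W`. The
`p`-adic multiple zeta values are such a family if they satisfy Q1 in weight at most `W`. Here `C` is arbitrary and `K`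
does not depend on `C`. For `W ≤ 2` the condition on relations in weight `W` is empty.

The starting result `AllIndices` treats indices with a large first argument (patterns without a fixed prefix). New are
relations that mix fixed indices and indices with a fixed prefix with large indices. The proof
(`Pool/Agent/X90/DC`) writes the values with a fixed prefix as polynomials in fixed values and values without a fixed
prefix, replaces the fixed values by a `ℚ`-basis of the space spanned by their monomials and eliminates the elements of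
this basis one by one with the stuffle product at several tuples in general position.
-/

set_option autoImplicit false

namespace Pool.Agent.Results.MP_03df5c_nt.BoundedWeightReduction

/-- `trunc [s_1, ..., s_r] m` is the sum of `∏ k_i ^ (-s_i)` over `m > k_1 > ... > k_r ≥ 1` -/
noncomputable def trunc : List ℕ → ℕ → ℝ
  | [], _ => 1
  | s :: l, m => ∑ j ∈ Finset.Ico 1 m, trunc l j / (j : ℝ) ^ s

/-- the multiple zeta value `ζ(s_1, ..., s_r)`, `s_1` belongs to the largest variable -/
noncomputable def mzv : List ℕ → ℝ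
  | [] => 1
  | s :: l => ∑' k : ℕ, trunc l (k + 1) / ((k + 1 : ℕ) : ℝ) ^ s

/-- admissible indices: `(s_1, ..., s_r)` with `r ≥ 1`, `s_1 ≥ 2` and all `s_i ≥ 1` -/
def AdmissibleIndex : List ℕ → Prop
  | [] => False
  | s :: l => 2 ≤ s ∧ ∀ t ∈ l, 1 ≤ t

/-- the list of the indices in the stuffle (series) product of two indices -/
def stuffles : List ℕ → List ℕ → List (List ℕ)
  | [], l => [l]
  | i :: k, [] => [i :: k]
  | i :: k, j :: l => (stuffles k (j :: l)).map (i :: ·) ++ (stuffles (i :: k) l).map (j :: ·) ++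
      (stuffles k l).map ((i + j) :: ·)
termination_by k l => k.length + l.length

/-- `Z` has the stuffle product: `Z(k) Z(l) = ∑ Z(m)` over the indices `m` of the stuffle product
of `k` and `l`, for all admissible indices `k` and `l` -/
def HasStuffleProduct {A : Type} [CommRing A] (Z : List ℕ → A) : Prop :=
  ∀ k l : List ℕ, AdmissibleIndex k → AdmissibleIndex l →
    Z k * Z l = ((stuffles k l).map Z).sum

/-- `Z` has the relations of weight at most `W`: `Q(ζ(p_1), …, ζ(p_m)) = 0` implies
`Q(Z(p_1), …, Z(p_m)) = 0`, for all integer polynomials `Q` and all admissible indices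
`p_1, …, p_m` of weight at most `W` -/
def HasRelationsUpTo {A : Type} [CommRing A] (W : ℕ) (Z : List ℕ → A) : Prop :=
  ∀ (m : ℕ) (p : Fin m → List ℕ), (∀ i, AdmissibleIndex (p i) ∧ (p i).sum ≤ W) →
    ∀ Q : MvPolynomial (Fin m) ℤ, MvPolynomial.aeval (fun i => mzv (p i)) Q = 0 →
      MvPolynomial.aeval (fun i => Z (p i)) Q = 0

/-- a pattern in the variables `s_1, …, s_k`: a nonempty list of letters `(b, u)`, different from
`(0, 0)`, the first letter is also different from `(1, 0)` -/
def Pattern {k : ℕ} (w : List (ℕ × (Fin k → ℕ))) : Prop :=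
  w ≠ [] ∧ (∀ u ∈ w.head?, u.2 ≠ 0 ∨ 2 ≤ u.1) ∧ ∀ u ∈ w, u.2 ≠ 0 ∨ 1 ≤ u.1

/-- the index of a pattern: the letter `(b, u)` becomes `b + ∑ u_j s_j` -/
def index {k : ℕ} (s : Fin k → ℕ) (w : List (ℕ × (Fin k → ℕ))) : List ℕ :=
  w.map fun u => u.1 + ∑ j, u.2 j * s j

/-- the sum of the fixed letters `(b, 0)` in front of the first letter `(b, u)` with `u ≠ 0` -/
def prefixWeight {k : ℕ} : List (ℕ × (Fin k → ℕ)) → ℕ
  | [] => 0
  | u :: w => open Classical in if u.2 = 0 then u.1 + prefixWeight w else 0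

/-- there are an integer polynomial `f` of total degree at most `D` with coefficients of absolute
value at most `H` and a function `Z` from the indices to a commutative `ℚ`-algebra, with the stuffle
product and the relations of weight at most `W`, such that `f(ζ(w_1(s)), …, ζ(w_r(s))) = 0` and
`f(Z(w_1(s)), …, Z(w_r(s))) ≠ 0` -/
def Exceptional {k r : ℕ} (W D : ℕ) (H : ℝ) (w : Fin r → List (ℕ × (Fin k → ℕ)))
    (s : Fin k → ℕ) : Prop :=
  ∃ f : MvPolynomial (Fin r) ℤ, f.totalDegree ≤ D ∧ (∀ m, |((f.coeff m : ℤ) : ℝ)| ≤ H) ∧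
    MvPolynomial.aeval (fun i => mzv (index s (w i))) f = 0 ∧
    ∃ (A : Type) (_ : CommRing A) (_ : Algebra ℚ A) (Z : List ℕ → A), HasStuffleProduct Z ∧
      HasRelationsUpTo W Z ∧ MvPolynomial.aeval (fun i => Z (index s (w i))) f ≠ 0

theorem trunc_eq : ∀ l m, trunc l m = Pool.Agent.Y760.ZG.hr l m := by
  intro l
  induction l with
  | nil => intro m; rw [trunc, Pool.Agent.Y760.ZG.hr]
  | cons s l ih =>
    intro m
    rw [trunc, Pool.Agent.Y760.ZG.hr]
    exact Finset.sum_congr rfl fun j _ => by rw [ih]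

theorem mzv_eq : ∀ l, mzv l = Pool.Agent.Y760.ZG.mz l := by
  intro l
  cases l with
  | nil => rw [mzv, Pool.Agent.Y760.ZG.mz]
  | cons s l =>
    rw [mzv, Pool.Agent.Y760.ZG.mz]
    exact tsum_congr fun k => by rw [trunc_eq]

theorem stuffles_eq : ∀ u v, stuffles u v = Pool.Agent.Y760.ZF.sti u v := by
  intro u v
  induction u, v using Pool.Agent.Y760.ZF.sti.induct with
  | case1 v => rw [stuffles, Pool.Agent.Y760.ZF.sti]
  | case2 x u => rw [stuffles, Pool.Agent.Y760.ZF.sti]
  | case3 x u y v ih1 ih2 ih3 => rw [stuffles, Pool.Agent.Y760.ZF.sti, ih1, ih2, ih3]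

theorem adm_iff : ∀ u, AdmissibleIndex u ↔ Pool.Agent.X90.DB.Ad u := by
  intro u
  cases u <;> exact Iff.rfl

theorem prefixWeight_eq {k : ℕ} : ∀ w : List (ℕ × (Fin k → ℕ)),
    Pool.Agent.X90.DC.fw w = prefixWeight w := by
  intro w
  induction w with
  | nil => rfl
  | cons u w ih =>
    rw [prefixWeight, Pool.Agent.X90.DC.fw, ih]

theorem has_stuffle {A : Type} [CommRing A] {Z : List ℕ → A} (h : HasStuffleProduct Z) :
    ∀ u v, Pool.Agent.X90.DB.Ad u → Pool.Agent.X90.DB.Ad v →
      Z u * Z v = ((Pool.Agent.Y760.ZF.sti u v).map Z).sum := by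
  intro u v hu hv
  rw [h u v ((adm_iff u).2 hu) ((adm_iff v).2 hv), stuffles_eq]

theorem aeval_cast {σ : Type} (z : σ → ℝ) (Q : MvPolynomial σ ℤ) :
    MvPolynomial.aeval (fun i => ((z i : ℝ) : ℂ)) Q = ((MvPolynomial.aeval z Q : ℝ) : ℂ) := by
  simp only [MvPolynomial.aeval_def, MvPolynomial.eval₂_eq, eq_intCast]
  push_cast
  rfl

theorem rel_of {A : Type} [CommRing A] {W : ℕ} {Z : List ℕ → A} (h : HasRelationsUpTo W Z)
    (x : Fin 0 → ℂ) (y : Fin 0 → A) : Pool.Agent.X90.DC.Rel W x y Z := by
  intro Q hQ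
  obtain ⟨n, g, -, q, rfl⟩ := MvPolynomial.exists_fin_rename Q
  rw [MvPolynomial.aeval_rename] at hQ ⊢
  have h1 : ∀ i, ∃ p : {p : List ℕ // Pool.Agent.X90.DB.Ad p ∧ p.sum ≤ W}, g i = Sum.inr p := by
    intro i
    rcases g i with j | p
    · exact j.elim0
    · exact ⟨p, rfl⟩
  choose p hp using h1
  have h2 := h n (fun i => (p i).1) (fun i => ⟨(adm_iff _).2 (p i).2.1, (p i).2.2⟩) q (by
    have h3 : (Sum.elim x fun p : {p : List ℕ // Pool.Agent.X90.DB.Ad p ∧ p.sum ≤ W} =>
        ((Pool.Agent.Y760.ZG.mz p.1 : ℝ) : ℂ)) ∘ g = fun i => ((mzv (p i).1 : ℝ) : ℂ) := by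
      funext i
      rw [Function.comp, hp i, Sum.elim_inr, mzv_eq]
    rw [h3, aeval_cast (fun i => mzv (p i).1)] at hQ
    exact_mod_cast hQ)
  have h3 : (Sum.elim y fun p : {p : List ℕ // Pool.Agent.X90.DB.Ad p ∧ p.sum ≤ W} =>
        Z p.1) ∘ g = fun i => Z (p i).1 := by
    funext i
    rw [Function.comp, hp i, Sum.elim_inr]
  rw [h3]
  exact h2

theorem mzv_two : mzv [2] = Real.pi ^ 2 / 6 := by
  rw [mzv]
  have h1 := hasSum_zeta_two
  rw [← hasSum_nat_add_iff' 1] at h1
  simp only [Finset.range_one, Finset.sum_singleton, Nat.cast_zero, ne_eq, OfNat.ofNat_ne_zero,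
    not_false_eq_true, zero_pow, div_zero, sub_zero] at h1
  rw [← h1.tsum_eq]
  exact tsum_congr fun k => by rw [trunc]

theorem zeta_two_transcendental : Transcendental ℤ (mzv [2]) := by
  intro h
  rw [IsFractionRing.isAlgebraic_iff ℤ ℚ ℝ, mzv_two] at h
  have h1 : IsAlgebraic ℚ (Real.pi ^ 2) := by
    have h2 : IsAlgebraic ℚ (6 : ℝ) := isAlgebraic_algebraMap (6 : ℚ)
    have h3 := h.mul h2
    have h4 : Real.pi ^ 2 / 6 * 6 = Real.pi ^ 2 := by ring
    rwa [h4] at h3
  exact Pool.Agent.H340R2.LW.transcendental_pi (IsAlgebraic.of_pow (by norm_num) h1)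

theorem weight_two {A : Type} [CommRing A] {W : ℕ} (hW : W ≤ 2) (Z : List ℕ → A) :
    HasRelationsUpTo W Z := by
  intro m p hp Q hQ
  have h1 : ∀ i, p i = [2] := by
    intro i
    obtain ⟨h2, h3⟩ := hp i
    rcases hpi : p i with _ | ⟨a, l⟩
    · rw [hpi] at h2
      exact h2.elim
    · rw [hpi] at h2 h3
      obtain ⟨h4, h5⟩ := h2
      rw [List.sum_cons] at h3
      rcases l with _ | ⟨b, l⟩
      · rw [List.sum_nil] at h3
        have : a = 2 := by omega
        rw [this]
      · have h6 := h5 b List.mem_cons_self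
        rw [List.sum_cons] at h3
        omega
  simp only [h1] at hQ ⊢
  have hcomp : ∀ (B : Type) [CommRing B] (z : B), Polynomial.aeval z
      (MvPolynomial.aeval (fun _ : Fin m => (Polynomial.X : Polynomial ℤ)) Q) =
      MvPolynomial.aeval (fun _ => z) Q := by
    intro B _ z
    rw [← AlgHom.comp_apply]
    congr 1
    refine MvPolynomial.algHom_ext fun i => ?_
    rw [AlgHom.comp_apply, MvPolynomial.aeval_X, MvPolynomial.aeval_X, Polynomial.aeval_X]
  rw [← hcomp] at hQ ⊢
  have h2 : MvPolynomial.aeval (fun _ : Fin m => (Polynomial.X : Polynomial ℤ)) Q = 0 := by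
    by_contra h
    exact zeta_two_transcendental ⟨_, h, hQ⟩
  rw [h2, map_zero]

/-- **Reduction of Q1 to bounded weight.** Let `w_1, …, w_r` be patterns in `k` variables with `prefixWeight ≤ W`, let
`D` and `κ` be natural numbers. There is `K` such that for all `C` and all sufficiently large `N`: for all but at most
`K N ^ (k - 1)` of the tuples `s ∈ [N, κ N] ^ k`, each integer polynomial `f` of degree at most `D` with coefficients of
absolute value at most `C ^ N` and `f(ζ(w_1(s)), …, ζ(w_r(s))) = 0` satisfies `f(Z(w_1(s)), …, Z(w_r(s))) = 0` for all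
functions `Z` from the indices to a commutative `ℚ`-algebra that have the stuffle product and the relations of weight at
most `W`. If `W ≤ 2`, then all `Z` have the relations of weight at most `W`. -/
theorem result (k r D κ W : ℕ) (w : Fin r → List (ℕ × (Fin k → ℕ))) (hw : ∀ i, Pattern (w i))
    (hW : ∀ i, prefixWeight (w i) ≤ W) :
    (∃ K : ℕ, ∀ C : ℝ, ∃ N0 : ℕ, ∀ N : ℕ, N0 ≤ N →
      {s : Fin k → ℕ | (∀ j, N ≤ s j ∧ s j ≤ κ * N) ∧ Exceptional W D (C ^ N) w s}.Finite ∧
      {s : Fin k → ℕ | (∀ j, N ≤ s j ∧ s j ≤ κ * N) ∧ Exceptional W D (C ^ N) w s}.ncard ≤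
        K * N ^ (k - 1)) ∧
    (W ≤ 2 → ∀ (A : Type) [CommRing A] (Z : List ℕ → A), HasRelationsUpTo W Z) := by
  classical
  refine ⟨?_, fun h A _ Z => weight_two h Z⟩
  obtain ⟨K, hK⟩ := Pool.Agent.X90.DC.gen 0 k r D w (fun i => (hw i).2) W
    (fun i => by rw [prefixWeight_eq]; exact hW i) κ
  refine ⟨K, fun C => ?_⟩
  obtain ⟨N0, hN0⟩ := hK C (fun i => i.elim0)
  refine ⟨N0 + 2, fun N hN => ?_⟩
  have hfin : {s : Fin k → ℕ | (∀ j, N ≤ s j ∧ s j ≤ κ * N) ∧
      Exceptional W D (C ^ N) w s}.Finite := by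
    refine (Fintype.piFinset fun _ : Fin k => Finset.Icc N (κ * N)).finite_toSet.subset ?_
    rintro s ⟨hs, -⟩
    rw [Finset.mem_coe, Fintype.mem_piFinset]
    exact fun j => Finset.mem_Icc.2 (hs j)
  refine ⟨hfin, ?_⟩
  rw [Set.ncard_eq_toFinset_card _ hfin]
  refine hN0 N (by omega) hfin.toFinset fun s hs => ?_
  rw [Set.Finite.mem_toFinset] at hs
  obtain ⟨hs, f, hfD, hfC, hf0, A, _, _, Z, hZ1, hZ2, hZ3⟩ := hs
  have hC0 : 0 ≤ C ^ N := (abs_nonneg _).trans (hfC 0)
  have hs2 : ∀ j, 2 ≤ s j := fun j => le_trans (by omega) (hs j).1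
  refine ⟨hs, MvPolynomial.rename Sum.inr f, (MvPolynomial.totalDegree_rename_le _ _).trans hfD,
    fun m => ?_, ?_, fun h => hZ3 ?_⟩
  · by_cases hm : ∃ u : Fin r →₀ ℕ, u.mapDomain Sum.inr = m ∧ f.coeff u ≠ 0
    · obtain ⟨u, rfl, -⟩ := hm
      rw [MvPolynomial.coeff_rename_mapDomain _ Sum.inr_injective]
      exact hfC u
    · rw [MvPolynomial.coeff_rename_eq_zero _ _ _ fun u hu => by
        by_contra h0
        exact hm ⟨u, hu, h0⟩]
      simpa using hC0
  · rw [MvPolynomial.aeval_rename, Sum.elim_comp_inr, aeval_cast]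
    simp only [mzv_eq] at hf0
    rw [show (fun i => Pool.Agent.Y760.ZG.mz (Pool.Agent.X90.DB.ix s (w i))) =
      fun i => Pool.Agent.Y760.ZG.mz (index s (w i)) from rfl, hf0, Complex.ofReal_zero]
  · have h1 := h A (fun i => i.elim0) Z (rel_of hZ2 _ _) (has_stuffle hZ1)
    rw [MvPolynomial.aeval_rename, Sum.elim_comp_inr] at h1
    have h2 : (fun i => Pool.Agent.X90.DB.ex Z (Pool.Agent.X90.DB.ix s (w i))) =
        fun i => Z (index s (w i)) := by
      funext i
      refine Pool.Agent.X90.DB.ex_ne Z fun h0 => (hw i).1 ?_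
      rw [Pool.Agent.X90.DB.ix, List.map_eq_nil_iff] at h0
      exact h0
    rw [h2] at h1
    exact h1

end Pool.Agent.Results.MP_03df5c_nt.BoundedWeightReduction
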