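import Pool.Agent.Results.MP_03df5c_nt.BoundedWeightReduction
import Pool.Agent.X174.WinInd

/-!
# Algebraic relations between multiple zeta values: reduction to bounded weight for ALL indices in cubes

Consider patterns `w_1, …, w_r`: indices whose entries are fixed numbers or linear forms `b + u_1 s_1 + ⋯ + u_k s_k` in
variables, for example `(3)`, `(5, s_1)`, `(2, 3, s_1 + s_2, 1, s_2 + 4)`. Let `v ≥ 1` be a sequence of exponent of
convergence at most `τ` (for `v_i = (i + 1) ^ a` this is `1 / a`, for `v_i = b ^ i` it is `0`) and `ρ < 1`. There is ONE set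
`E ⊂ ℝ^k` of Hausdorff dimension at most `(k - 1 + τ) / (1 - ρ)` such that for each `x` outside `E` with positive
coordinates, all patterns with prefixes of weight at most `W`, all degrees `D` and all `C`, for all but finitely many `i`:
for ALL natural numbers `s_1, …, s_k` with `|s_j - x_j v_i| ≤ v_i ^ ρ`, Q1 for the indices `w_1(s), …, w_r(s)` and integer
polynomials `f` of degree at most `D` with coefficients of absolute value at most `C ^ v_i` follows from Q1 for indices of
weight at most `W`: if `f(ζ(w_1(s)), …) = 0` then `f(Z(w_1(s)), …) = 0` for all families `Z`, in a commutative `ℚ`-algebra,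
which have the stuffle product and all the polynomial relations of the real multiple zeta values of weight at most `W`.

The number of exceptions is from our result `BoundedWeightReduction`.
-/

set_option autoImplicit false

namespace Pool.Agent.Results.MP_03df5c_nt.IndicesInCubes

open BoundedWeightReduction (mzv HasStuffleProduct HasRelationsUpTo Pattern index prefixWeight Exceptional)

/-- the exponent of convergence of the sequence `v` is at most `τ` -/
def ExpLe (v : ℕ → ℝ) (τ : ℝ) : Prop := ∀ t : ℝ, τ < t → Summable (fun n : ℕ => (v n) ^ (-t))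

/-- **Theorem.** (1) Let `k ≥ 1`. For every sequence `v ≥ 1` of exponent of convergence at most `τ ≥ 0` and every `ρ < 1`
there is a set `E ⊂ ℝ^k` of Hausdorff dimension at most `(k - 1 + τ) / (1 - ρ)` such that for each `x` outside `E` with
positive coordinates, all patterns `w_1, …, w_r` in `k` variables with `prefixWeight ≤ W`, all `D` and all `C ≥ 1`, for all
but finitely many `i`, ALL `s ∈ ℕ^k` with `|s_j - x_j v_i| ≤ v_i ^ ρ` have the property: each integer polynomial `f` of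
degree at most `D` with coefficients of absolute value at most `C ^ v_i` and `f(ζ(w_1(s)), …, ζ(w_r(s))) = 0` satisfies
`f(Z(w_1(s)), …, Z(w_r(s))) = 0` for all functions `Z` from the indices to a commutative `ℚ`-algebra that have the stuffle
product and the relations of weight at most `W`. (2) If `W ≤ 2`, then all `Z` have the relations of weight at most `W`. The
sequences `v_i = (i + 1) ^ a` and `v_i = b ^ i` have exponent of convergence at most `1 / a` and `0`. -/
theorem result :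
    (∀ (k : ℕ), 1 ≤ k → ∀ (v : ℕ → ℝ) (τ ρ : ℝ), (∀ i, 1 ≤ v i) → 0 ≤ τ → ExpLe v τ → ρ < 1 →
      ∃ E : Set (Fin k → ℝ), dimH E ≤ ENNReal.ofReal (((k : ℝ) - 1 + τ) / (1 - ρ)) ∧
        ∀ x : Fin k → ℝ, x ∉ E → (∀ j, 0 < x j) →
          ∀ (r D W : ℕ) (w : Fin r → List (ℕ × (Fin k → ℕ))), (∀ l, Pattern (w l)) →
            (∀ l, prefixWeight (w l) ≤ W) → ∀ C : ℝ, 1 ≤ C → ∃ i₀ : ℕ, ∀ i : ℕ, i₀ ≤ i →
              ∀ s : Fin k → ℕ, (∀ j, |(s j : ℝ) - x j * v i| ≤ (v i) ^ ρ) →
                ∀ f : MvPolynomial (Fin r) ℤ, f.totalDegree ≤ D → (∀ m, |((f.coeff m : ℤ) : ℝ)| ≤ C ^ (v i)) →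
                  MvPolynomial.aeval (fun l => mzv (index s (w l))) f = 0 →
                  ∀ (A : Type) [CommRing A] [Algebra ℚ A] (Z : List ℕ → A), HasStuffleProduct Z →
                    HasRelationsUpTo W Z → MvPolynomial.aeval (fun l => Z (index s (w l))) f = 0) ∧
    (∀ W : ℕ, W ≤ 2 → ∀ (A : Type) [CommRing A] (Z : List ℕ → A), HasRelationsUpTo W Z) ∧
    (∀ a : ℝ, 0 < a → ExpLe (fun n : ℕ => ((n : ℝ) + 1) ^ a) (1 / a)) ∧
    (∀ b : ℝ, 1 < b → ExpLe (fun n : ℕ => b ^ n) 0) := by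
  refine ⟨fun k hk v τ ρ hv hτ hE hρ => ?_, fun W hW =>
    (BoundedWeightReduction.result 1 0 0 0 W (fun l => l.elim0) (fun l => l.elim0) (fun l => l.elim0)).2 hW,
    fun κ hκ => Pool.Agent.Y854.GM.expLe_pow κ hκ, fun b hb => Pool.Agent.Y854.GM.expLe_geom b hb⟩
  have key : ∀ z : (r : ℕ) × ℕ × ℕ × (Fin r → List (ℕ × (Fin k → ℕ))), ∃ E : Set (Fin k → ℝ),
      dimH E ≤ ENNReal.ofReal (((k : ℝ) - 1 + τ) / (1 - ρ)) ∧
      ((∀ l, Pattern (z.2.2.2 l)) → (∀ l, prefixWeight (z.2.2.2 l) ≤ z.2.2.1) →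
        ∀ x : Fin k → ℝ, x ∉ E → (∀ j, 0 < x j) → ∀ C : ℝ, 1 ≤ C → ∃ i₀ : ℕ, ∀ i : ℕ, i₀ ≤ i → ∀ s : Fin k → ℕ,
          (∀ j, |(s j : ℝ) - x j * v i| ≤ (v i) ^ ρ) → ¬ Exceptional z.2.2.1 z.2.1 (C ^ (v i)) z.2.2.2 s) := by
    rintro ⟨r, D, W, w⟩
    dsimp only
    by_cases hw : (∀ l, Pattern (w l)) ∧ ∀ l, prefixWeight (w l) ≤ W
    · obtain ⟨E, h1, h2⟩ := Pool.Agent.X174.winInd hk (fun H s => Exceptional W D H w s)
        (fun H H' s hH ⟨f, hf, hc, h3⟩ => ⟨f, hf, fun m => (hc m).trans hH, h3⟩)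
        (fun κ => by
          obtain ⟨K, hK⟩ := (BoundedWeightReduction.result k r D κ W w hw.1 hw.2).1
          refine ⟨K, fun C => ?_⟩
          obtain ⟨N0, hN0⟩ := hK C
          exact ⟨N0, fun N hN => (hN0 N hN).2⟩) hv hτ hE hρ
      exact ⟨E, h1, fun _ _ => h2⟩
    · exact ⟨∅, by simp, fun h h' => absurd ⟨h, h'⟩ hw⟩
  choose Es h1 h2 using key
  refine ⟨⋃ z, Es z, ?_, fun x hx hx0 r D W w hw hW C hC => ?_⟩
  · rw [dimH_iUnion]
    exact iSup_le h1
  · obtain ⟨i₀, hi₀⟩ := h2 ⟨r, D, W, w⟩ hw hW x (fun hm => hx (Set.mem_iUnion.2 ⟨_, hm⟩)) hx0 C hC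
    refine ⟨i₀, fun i hi s hs f hf hfc hsum A _ _ Z hZ hZW => ?_⟩
    by_contra hne
    exact hi₀ i hi s hs ⟨f, hf, hfc, hsum, A, inferInstance, inferInstance, Z, hZ, hZW, hne⟩

end Pool.Agent.Results.MP_03df5c_nt.IndicesInCubes
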