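import Mathlib
import Pool.Agent.X142.PL.Padic

set_option autoImplicit false

namespace Pool.Agent.Results.MP_03df5c_nt.PolylogarithmArguments

open NumberField MvPolynomial

/-- The coefficients of the multiple polylogarithm:
`Li_{s₁,…,s_r}(z) = Σ_{n₁ > … > n_r ≥ 1} z^{n₁} / (n₁^{s₁} ⋯ n_r^{s_r})`, so the coefficient of `z^n` is
`n^{-s₁}` times the sum over `k < n` of the coefficients for `(s₂,…,s_r)`; `1` for the empty index. -/
def coeffLi : List ℕ → ℕ → ℚ
  | [], n => if n = 0 then 1 else 0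
  | s :: w, n => (∑ k ∈ Finset.range n, coeffLi w k) / (n : ℚ) ^ s

/-- The multiple polylogarithm as a function on (the open unit disc of) a normed field. -/
noncomputable def Li (K : Type) [NormedField K] (s : List ℕ) (x : K) : K :=
  ∑' n : ℕ, ((coeffLi s n : ℚ) : K) * x ^ n

/-- `HeightLe F T x`: `x = a / c` with algebraic integers `a`, `c` of `F`, all of whose conjugates are at
most `T` in absolute value. -/
def HeightLe (F : Type) [Field F] [NumberField F] (T : ℝ) (x : F) : Prop :=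
  ∃ a c : 𝓞 F, c ≠ 0 ∧ (∀ φ : F →+* ℂ, ‖φ a‖ ≤ T ∧ ‖φ c‖ ≤ T) ∧ x = a / c

lemma coeffLi_eq : ∀ (s : List ℕ) (n : ℕ), coeffLi s n = Pool.Agent.X142.PL.aa s n
  | [], n => rfl
  | s :: w, n => by
    rw [coeffLi, Pool.Agent.X142.PL.aa]
    simp only [coeffLi_eq w]

lemma Li_eq (K : Type) [NormedField K] (s : List ℕ) (x : K) : Li K s x = Pool.Agent.X142.PL.Li K s x := by
  unfold Li Pool.Agent.X142.PL.Li
  simp only [coeffLi_eq]

/-- At almost all arguments every algebraic near relation of polynomial height between complex multiple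
polylogarithm values holds exactly, at all complex arguments, and for the `p`-adic multiple
polylogarithms, for all `p`. -/
theorem result (M : Finset (List ℕ →₀ ℕ)) (hM : ∀ d ∈ M, ∀ s ∈ d.support, ∀ a ∈ s, 1 ≤ a) (L : Set ℂ)
    (hL : IsCompact L) (hL0 : ∀ z ∈ L, z ≠ 0 ∧ ‖z‖ < 1) (m : ℕ) (A ε : ℝ) (hε : 0 < ε) :
    ∃ B C₁ T₀ : ℝ, ∀ (F : Type) [Field F] [NumberField F], Module.finrank ℚ F ≤ m →
      ∀ (ι : F →+* ℂ) (T : ℝ), T₀ ≤ T →
      ∃ E : Finset F, (E.card : ℝ) ≤ C₁ * T ^ ε ∧ ∀ x : F, ι x ∈ L → HeightLe F T x → x ∉ E →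
        ∀ P : MvPolynomial (List ℕ) (𝓞 F), P.support ⊆ M →
          (∀ d (φ : F →+* ℂ), ‖φ (P.coeff d : 𝓞 F)‖ ≤ T ^ A) →
          ‖eval₂ (ι.comp (algebraMap (𝓞 F) F)) (fun s => Li ℂ s (ι x)) P‖ ≤ T ^ (-B) →
          (∀ z : ℂ, ‖z‖ < 1 → eval₂ (ι.comp (algebraMap (𝓞 F) F)) (fun s => Li ℂ s z) P = 0) ∧
          ∀ (p : ℕ) [Fact p.Prime] (K : Type) [NormedField K] [NormedAlgebra ℚ_[p] K] [CompleteSpace K]
            (σ : F →+* K) (y : K), ‖y‖ < 1 →
            eval₂ (σ.comp (algebraMap (𝓞 F) F)) (fun s => Li K s y) P = 0 := by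
  simp only [Li_eq]
  exact Pool.Agent.X142.PL.realPadic M hM L hL hL0 m A ε hε

end Pool.Agent.Results.MP_03df5c_nt.PolylogarithmArguments
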